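import Pool.Agent.H361R2.PP.Iface
import Pool.Agent.H647R2.ACNT

/-! Task PP-MER of helper361 (helper488): Mertens type bounds, from `Wtx`. -/

set_option autoImplicit false

open Finset

namespace Pool.Agent.H488R2

open Pool.Agent.H361R2.PP
open Pool.Agent.H410R2.AC (wt GG PP Pi1)
open Pool.Agent.H647R2.ACNT

/-- the facts used about the parameters -/
theorem par (hw : Wtx) (δ : ℝ) (hδ : 0 < δ) (hδ1 : δ ≤ 1) : ∃ X₀ : ℕ, ∀ X : ℕ, X₀ ≤ X →
    16 ≤ X ∧ 4 ≤ 2 ^ 2 ^ JJ δ X ∧ ((2 ^ 2 ^ JJ δ X : ℕ) : ℝ) ≤ (X : ℝ) ^ δ ∧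
    HH X < 2 ^ 2 ^ JJ δ X ∧ 1 ≤ Real.log X ∧
    δ / 4 * Real.log X ≤ Real.log ((2 ^ 2 ^ JJ δ X - 1 : ℕ) : ℝ) ∧
    Real.log ((2 ^ 2 ^ JJ δ X : ℕ) : ℝ) ≤ δ * Real.log X := by
  obtain ⟨X₁, h1⟩ := hw.2 δ hδ hδ1
  have hlog : Filter.Tendsto (fun X : ℕ => Real.log (X : ℝ)) Filter.atTop Filter.atTop :=
    Real.tendsto_log_atTop.comp tendsto_natCast_atTop_atTop
  obtain ⟨X₂, h2⟩ := Filter.eventually_atTop.1
    (hlog.eventually_ge_atTop (max 1 (2 / δ * Real.log 4)))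
  refine ⟨max 16 (max X₁ X₂), fun X hX => ?_⟩
  have hX16 : 16 ≤ X := (le_max_left _ _).trans hX
  have hX1 : X₁ ≤ X := (le_max_left _ _).trans ((le_max_right _ _).trans hX)
  have hX2 : X₂ ≤ X := (le_max_right _ _).trans ((le_max_right _ _).trans hX)
  obtain ⟨a1, a2, a3⟩ := h1 X hX1
  have b := h2 X hX2
  have b1 : 1 ≤ Real.log X := (le_max_left _ _).trans b
  have b2 : 2 / δ * Real.log 4 ≤ Real.log X := (le_max_right _ _).trans b
  have hXpos : (0 : ℝ) < X := by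
    have : (16 : ℝ) ≤ X := by exact_mod_cast hX16
    linarith
  set M : ℕ := 2 ^ 2 ^ JJ δ X with hM
  have hMr : ((2 : ℝ) ^ 2 ^ JJ δ X) = (M : ℝ) := by rw [hM]; push_cast; rfl
  rw [hMr] at a1 a2
  have hMpos : (0 : ℝ) < M := by
    rw [← hMr]; positivity
  have hlogM : δ / 2 * Real.log X ≤ Real.log M := by
    have := Real.log_le_log (by positivity) a2
    rwa [Real.log_rpow hXpos] at this
  have h4 : Real.log 4 ≤ Real.log M := by
    refine le_trans ?_ hlogM
    have h5 : δ / 2 * (2 / δ * Real.log 4) ≤ δ / 2 * Real.log X :=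
      mul_le_mul_of_nonneg_left b2 (by positivity)
    have h6 : δ / 2 * (2 / δ * Real.log 4) = Real.log 4 := by field_simp
    linarith
  have hM4 : 4 ≤ M := by
    have := (Real.log_le_log_iff (by norm_num) hMpos).1 h4
    exact_mod_cast this
  refine ⟨hX16, hM4, a1, a3, b1, ?_, ?_⟩
  · have h5 : Real.log M ≤ 2 * Real.log ((M - 1 : ℕ) : ℝ) := by
      have h6 : (M : ℝ) ≤ ((M - 1 : ℕ) : ℝ) ^ 2 := by
        have h7 : M ≤ (M - 1) ^ 2 := by
          obtain ⟨k, hk⟩ : ∃ k, M = k + 4 := ⟨M - 4, by omega⟩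
          rw [hk]
          have : k + 4 - 1 = k + 3 := by omega
          rw [this]
          nlinarith
        exact_mod_cast h7
      have h8 := Real.log_le_log hMpos h6
      rw [Real.log_pow] at h8
      exact_mod_cast h8
    linarith
  · have := Real.log_le_log hMpos a1
    rwa [Real.log_rpow hXpos] at this

theorem P2_eq (J z : ℕ) : P2 J z = PP (2 ^ 2 ^ J - 1) z := by
  have h0 : 0 < 2 ^ 2 ^ J := by positivity
  unfold P2 PP
  ext p
  simp only [Finset.mem_filter, Finset.mem_range]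
  constructor
  · rintro ⟨a, b, c⟩
    exact ⟨a, b, by omega⟩
  · rintro ⟨a, b, c⟩
    exact ⟨a, b, by omega⟩

theorem log_le_Pi1 (H : ℕ) : Real.log H ≤ Pi1 (SH H) := by
  have h := nt2 H H H le_rfl
  have h1 : PP H H = ∅ := by
    rw [Finset.eq_empty_iff_forall_notMem]
    intro p hp
    have := prime_of_PP hp
    omega
  rw [h1, Finset.powerset_empty] at h
  rcases Nat.eq_zero_or_pos H with h0 | h0
  · subst h0
    simp only [Nat.cast_zero, Real.log_zero]
    unfold Pi1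
    apply Finset.prod_nonneg
    intro p hp
    have h2 : (1 : ℝ) < p := by exact_mod_cast (Finset.mem_filter.1 hp).2.one_lt
    have : (0 : ℝ) < (p : ℝ) - 1 := by linarith
    positivity
  · have h2 : ({∅} : Finset (Finset ℕ)).filter (fun R : Finset ℕ => ∏ p ∈ R, p ≤ H) = {∅} := by
      rw [Finset.filter_singleton, if_pos]
      rw [Finset.prod_empty]
      exact h0
    rw [h2, Finset.sum_singleton] at h
    simpa [wt] using h

theorem prod_inv (S : Finset ℕ) (hS : ∀ p ∈ S, p.Prime) :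
    (∏ p ∈ S, (1 - 1 / (p : ℝ))) * Pi1 S = 1 := by
  unfold Pi1
  rw [← Finset.prod_mul_distrib]
  apply Finset.prod_eq_one
  intro p hp
  have h1 : (1 : ℝ) < p := by exact_mod_cast (hS p hp).one_lt
  have h2 : (p : ℝ) - 1 ≠ 0 := by linarith
  have h3 : (p : ℝ) ≠ 0 := by linarith
  field_simp
  ring

theorem prod_pos' (S : Finset ℕ) (hS : ∀ p ∈ S, p.Prime) :
    0 < ∏ p ∈ S, (1 - 1 / (p : ℝ)) := by
  apply Finset.prod_pos
  intro p hp
  have h1 : (1 : ℝ) < p := by exact_mod_cast (hS p hp).one_lt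
  rw [sub_pos, div_lt_one (by linarith)]
  exact h1

theorem range_eq (M : ℕ) (hM : 1 ≤ M) : (range M).filter Nat.Prime = SH (M - 1) := by
  unfold SH
  have : M - 1 + 1 = M := by omega
  rw [this]

theorem mer (hw : Wtx) : Mer := by
  refine ⟨4, by norm_num, fun δ hδ hδ1 => ?_⟩
  obtain ⟨X₀, h⟩ := par hw δ hδ hδ1
  refine ⟨X₀, fun X hX => ?_⟩
  obtain ⟨h16, hM4, hMX, hHM, hlX, hl1, hl2⟩ := h X hX
  set M : ℕ := 2 ^ 2 ^ JJ δ X with hM
  have hP1 : ∀ p ∈ P1 (HH X) (JJ δ X), p.Prime := fun p hp => (Finset.mem_filter.1 hp).2.1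
  have hWφ : ((Nat.totient (Wm X) : ℝ) / Wm X) = ∏ p ∈ SH (HH X), (1 - 1 / (p : ℝ)) := by
    have h1 := totient_primorial (HH X)
    have h2 := prod_inv (SH (HH X)) (fun p hp => (Finset.mem_filter.1 hp).2)
    have h3 : (0 : ℝ) < Wm X := by
      unfold Wm
      exact_mod_cast primorial_pos _
    rw [div_eq_iff h3.ne']
    have h4 : Pi1 (SH (HH X)) ≠ 0 := by
      intro h0
      rw [h0, mul_zero] at h2
      exact one_ne_zero h2.symm
    apply mul_right_cancel₀ h4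
    change ((primorial (HH X)).totient : ℝ) * Pi1 (SH (HH X)) = _
    rw [h1]
    have : (∏ p ∈ SH (HH X), (1 - 1 / (p : ℝ))) * (Wm X : ℝ) * Pi1 (SH (HH X)) =
        ((∏ p ∈ SH (HH X), (1 - 1 / (p : ℝ))) * Pi1 (SH (HH X))) * (Wm X : ℝ) := by ring
    rw [this, h2, one_mul]
    rfl
  have hsplit : ∏ p ∈ (range M).filter Nat.Prime, (1 - 1 / (p : ℝ)) =
      (∏ p ∈ P1 (HH X) (JJ δ X), (1 - 1 / (p : ℝ))) * ((Nat.totient (Wm X) : ℝ) / Wm X) := by
    rw [hWφ]
    have hd : Disjoint (P1 (HH X) (JJ δ X)) (SH (HH X)) := by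
      rw [Finset.disjoint_left]
      intro p hp hq
      unfold P1 at hp
      unfold SH at hq
      rw [Finset.mem_filter, Finset.mem_range] at hp hq
      omega
    rw [← Finset.prod_union hd]
    apply Finset.prod_congr _ (fun _ _ => rfl)
    ext p
    unfold P1 SH
    simp only [Finset.mem_filter, Finset.mem_range, Finset.mem_union]
    constructor
    · rintro ⟨a, b⟩
      by_cases hpH : HH X < p
      · exact Or.inl ⟨a, b, hpH⟩
      · exact Or.inr ⟨by omega, b⟩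
    · rintro (⟨a, b, _⟩ | ⟨a, b⟩)
      · exact ⟨a, b⟩
      · exact ⟨by omega, b⟩
  refine ⟨prod_pos' _ hP1, ?_, hsplit⟩
  rw [← hsplit, range_eq M (by omega)]
  have h1 := prod_inv (SH (M - 1)) (fun p hp => (Finset.mem_filter.1 hp).2)
  have h2 := prod_pos' (SH (M - 1)) (fun p hp => (Finset.mem_filter.1 hp).2)
  have h3 := log_le_Pi1 (M - 1)
  have h4 : δ / 4 * Real.log X ≤ Pi1 (SH (M - 1)) := hl1.trans h3
  have h5 : (∏ p ∈ SH (M - 1), (1 - 1 / (p : ℝ))) * (δ / 4 * Real.log X) ≤ 1 := by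
    exact (mul_le_mul_of_nonneg_left h4 h2.le).trans h1.le
  linarith

theorem mrv (hw : Wtx) : Mrv := by
  intro δ s hδ hδ1 hs
  obtain ⟨C, hC, hm⟩ := mer hw
  obtain ⟨X₁, h1⟩ := hm δ hδ hδ1
  obtain ⟨X₂, h2⟩ := par hw δ hδ hδ1
  have hlog : Filter.Tendsto (fun X : ℕ => Real.log (X : ℝ) ^ (13 / 20 : ℝ))
      Filter.atTop Filter.atTop :=
    (tendsto_rpow_atTop (by norm_num)).comp
      (Real.tendsto_log_atTop.comp tendsto_natCast_atTop_atTop)
  obtain ⟨X₃, h3⟩ := Filter.eventually_atTop.1 (hlog.eventually_ge_atTop (C / (δ * s)))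
  refine ⟨max X₁ (max X₂ X₃), fun X hX => ?_⟩
  have hX1 : X₁ ≤ X := (le_max_left _ _).trans hX
  have hX2 : X₂ ≤ X := (le_max_left _ _).trans ((le_max_right _ _).trans hX)
  have hX3 : X₃ ≤ X := (le_max_right _ _).trans ((le_max_right _ _).trans hX)
  obtain ⟨a1, a2, _⟩ := h1 X hX1
  obtain ⟨h16, _, _, _, hlX, _, _⟩ := h2 X hX2
  have b := h3 X hX3
  set V := ∏ p ∈ P1 (HH X) (JJ δ X), (1 - 1 / (p : ℝ)) with hV
  have hW0 : (0 : ℝ) < Wm X := by
    unfold Wm
    exact_mod_cast primorial_pos _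
  have hWle := hw.1 X h16
  have hφ : (1 : ℝ) ≤ (Nat.totient (Wm X) : ℝ) := by
    have : 0 < Nat.totient (Wm X) := Nat.totient_pos.2 (by
      unfold Wm
      exact primorial_pos _)
    exact_mod_cast this
  have hl0 : 0 < Real.log X := by linarith
  have hr0 : 0 < Real.log X ^ (7 / 20 : ℝ) := by positivity
  have hfr : 1 / Real.log X ^ (7 / 20 : ℝ) ≤ (Nat.totient (Wm X) : ℝ) / Wm X := by
    apply div_le_div₀ (by linarith) hφ hW0 hWle
  have h4 : V * (1 / Real.log X ^ (7 / 20 : ℝ)) * (δ * Real.log X) ≤ C := by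
    refine le_trans ?_ a2
    have := mul_le_mul_of_nonneg_left hfr a1.le
    exact mul_le_mul_of_nonneg_right this (by positivity)
  have h5 : Real.log X = Real.log X ^ (7 / 20 : ℝ) * Real.log X ^ (13 / 20 : ℝ) := by
    rw [← Real.rpow_add hl0]
    norm_num
  have h6 : V * (1 / Real.log X ^ (7 / 20 : ℝ)) * (δ * Real.log X) =
      V * (δ * Real.log X ^ (13 / 20 : ℝ)) := by
    conv_lhs => rw [h5]
    have : Real.log X ^ (7 / 20 : ℝ) ≠ 0 := hr0.ne'
    rw [← h5]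
    field_simp
    rw [mul_comm]
    exact h5.trans (mul_comm _ _) |>.trans (by ring)
  rw [h6] at h4
  have h7 : C / s ≤ δ * Real.log X ^ (13 / 20 : ℝ) := by
    rw [div_le_iff₀ (by positivity)] at b
    rw [div_le_iff₀ hs]
    linarith
  have h8 : V * (C / s) ≤ C := (mul_le_mul_of_nonneg_left h7 a1.le).trans h4
  have hC0 : 0 < C := by linarith
  rw [mul_div_assoc', div_le_iff₀ hs] at h8
  nlinarith

theorem ggtypes (hw : Wtx) : GGTypes := by
  obtain ⟨C, hC, hn1, hn2, hn3, _⟩ := nt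
  refine ⟨4 * C, by linarith, fun δ hδ hδ1 => ?_⟩
  obtain ⟨X₀, h⟩ := par hw δ hδ (by linarith)
  refine ⟨X₀, fun X hX t ht1 ht2 => ?_⟩
  obtain ⟨h16, hM4, hMX, hHM, hlX, hl1, hl2⟩ := h X hX
  set M : ℕ := 2 ^ 2 ^ JJ δ X with hM
  have hXr : (16 : ℝ) ≤ X := by exact_mod_cast h16
  have hX0 : (0 : ℝ) < X := by linarith
  have hX1 : (1 : ℝ) ≤ X := by linarith
  set Y : ℕ := ⌊(X : ℝ) ^ t⌋₊ with hY
  have hYX : Y ≤ X := by
    have h1 : (X : ℝ) ^ t ≤ X := by
      calc (X : ℝ) ^ t ≤ (X : ℝ) ^ (1 : ℝ) := Real.rpow_le_rpow_of_exponent_le hX1 (by linarith)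
        _ = X := Real.rpow_one _
    have h2 : (Y : ℝ) ≤ X := (Nat.floor_le (by positivity)).trans h1
    exact_mod_cast h2
  have hXt : (M : ℝ) ≤ (X : ℝ) ^ t := hMX.trans (Real.rpow_le_rpow_of_exponent_le hX1 ht1)
  have hMY : M ≤ Y := Nat.le_floor hXt
  have hset : (P2 (JJ δ X) X).powerset.filter
      (fun R : Finset ℕ => Real.log (∏ p ∈ R, (p : ℝ)) ≤ t * Real.log X) =
      (PP (M - 1) X).powerset.filter (fun R : Finset ℕ => ∏ p ∈ R, p ≤ Y) := by
    rw [P2_eq]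
    apply Finset.filter_congr
    intro R hR
    rw [Finset.mem_powerset] at hR
    have hpos : (0 : ℝ) < ∏ p ∈ R, (p : ℝ) := Finset.prod_pos fun p hp => by
      exact_mod_cast (prime_of_PP (hR hp)).1.pos
    rw [hY, Nat.le_floor_iff (by positivity), ← Real.log_rpow hX0,
      Real.log_le_log_iff hpos (by positivity)]
    push_cast
    rfl
  rw [hset]
  have hH2 : 2 ≤ M - 1 := by omega
  have hl0 : 0 < Real.log X := by linarith
  have ht0 : 0 < t := by linarith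
  have hYpos : (0 : ℝ) < Y := by
    have : 0 < Y := by omega
    exact_mod_cast this
  have hHpos : 0 < Real.log ((M - 1 : ℕ) : ℝ) := lt_of_lt_of_le (by positivity) hl1
  constructor
  · have h1 := hn2 (M - 1) X Y hH2 hYX
    have hlogY : t / 2 * Real.log X ≤ Real.log Y := by
      have hu : (4 : ℝ) ≤ (X : ℝ) ^ t := by
        have : (4 : ℝ) ≤ M := by exact_mod_cast hM4
        linarith
      have h2 : (X : ℝ) ^ t < Y + 1 := Nat.lt_floor_add_one _
      have h3 : (X : ℝ) ^ (t / 2) ≤ Y := by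
        set v := (X : ℝ) ^ (t / 2) with hv
        have hv2 : v * v = (X : ℝ) ^ t := by
          rw [hv, ← Real.rpow_add hX0]
          congr 1
          ring
        have hv0 : 0 < v := by positivity
        have hv3 : 2 ≤ v := by nlinarith
        nlinarith
      have h4 := Real.log_le_log (by positivity) h3
      rwa [Real.log_rpow hX0] at h4
    have hlogH : Real.log ((M - 1 : ℕ) : ℝ) ≤ δ * Real.log X := by
      refine le_trans (Real.log_le_log ?_ ?_) hl2
      · have : 0 < M - 1 := by omega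
        exact_mod_cast this
      · have : M - 1 ≤ M := Nat.sub_le _ _
        exact_mod_cast this
    have h5 : t / 2 * Real.log X / (δ * Real.log X) ≤ Real.log Y / Real.log ((M - 1 : ℕ) : ℝ) :=
      div_le_div₀ (le_trans (by positivity) hlogY) hlogY hHpos hlogH
    have h6 : t / 2 * Real.log X / (δ * Real.log X) = t / (2 * δ) := by
      field_simp
    rw [h6] at h5
    have h7 := h5.trans h1
    have hC0 : 0 < C := by linarith
    have h8 : t / (4 * C * δ) = t / (2 * δ) / (2 * C) := by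
      field_simp
      norm_num
    rw [h8, div_le_iff₀ (by positivity)]
    have hS : 0 ≤ ∑ R ∈ (PP (M - 1) X).powerset.filter (fun R : Finset ℕ => ∏ p ∈ R, p ≤ Y),
        wt R := Finset.sum_nonneg fun R hR => wt_nonneg R fun p hp =>
          (prime_of_PP (Finset.mem_powerset.1 (Finset.mem_filter.1 hR).1 hp)).1
    nlinarith [mul_nonneg hC0.le hS]
  · have h1 := hn3 (M - 1) X Y hH2 (by omega)
    refine h1.trans ?_
    have hlogY : Real.log Y ≤ t * Real.log X := by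
      have h2 : (Y : ℝ) ≤ (X : ℝ) ^ t := Nat.floor_le (by positivity)
      have h3 := Real.log_le_log hYpos h2
      rwa [Real.log_rpow hX0] at h3
    have h2 : Real.log Y / Real.log ((M - 1 : ℕ) : ℝ) ≤ t * Real.log X / (δ / 4 * Real.log X) :=
      div_le_div₀ (by positivity) hlogY (by positivity) hl1
    have h3 : t * Real.log X / (δ / 4 * Real.log X) = 4 * t / δ := by
      field_simp
    rw [h3] at h2
    calc C * (Real.log Y / Real.log ((M - 1 : ℕ) : ℝ)) ≤ C * (4 * t / δ) :=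
          mul_le_mul_of_nonneg_left h2 (by linarith)
      _ = 4 * C * t / δ := by ring

theorem gbd (hw : Wtx) : Gbd := by
  intro K
  obtain ⟨C, hC, hn1, _⟩ := nt
  refine ⟨⌈4 * C⌉₊ + K, ?_, fun δ hδ hδ1 => ?_⟩
  · have : 0 < ⌈4 * C⌉₊ := Nat.ceil_pos.2 (by linarith)
    omega
  obtain ⟨X₀, h⟩ := par hw δ hδ (by linarith)
  refine ⟨X₀, fun X hX => ?_⟩
  obtain ⟨h16, hM4, hMX, hHM, hlX, hl1, hl2⟩ := h X hX
  set M : ℕ := 2 ^ 2 ^ JJ δ X with hM
  have hXr : (16 : ℝ) ≤ X := by exact_mod_cast h16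
  have hX1 : (1 : ℝ) ≤ X := by linarith
  have hl0 : 0 < Real.log X := by linarith
  have hMX' : M ≤ X := by
    have h1 : (X : ℝ) ^ δ ≤ X := by
      calc (X : ℝ) ^ δ ≤ (X : ℝ) ^ (1 : ℝ) := Real.rpow_le_rpow_of_exponent_le hX1 (by linarith)
        _ = X := Real.rpow_one _
    exact_mod_cast hMX.trans h1
  rw [P2_eq]
  have hS : ∀ p ∈ PP (M - 1) X, (1 : ℝ) < p := fun p hp => by
    exact_mod_cast (prime_of_PP hp).1.one_lt
  have h1 : ∏ p ∈ PP (M - 1) X, (1 + (K : ℝ) / ((p : ℝ) - 1)) ≤ Pi1 (PP (M - 1) X) ^ K := by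
    unfold Pi1
    rw [← Finset.prod_pow]
    apply Finset.prod_le_prod
    · intro p hp
      have := hS p hp
      have : (0 : ℝ) < (p : ℝ) - 1 := by linarith
      positivity
    · intro p hp
      have := hS p hp
      have h2 : (0 : ℝ) < (p : ℝ) - 1 := by linarith
      have h3 := one_add_mul_le_pow (a := 1 / ((p : ℝ) - 1)) (by
        have : 0 < 1 / ((p : ℝ) - 1) := by positivity
        linarith) K
      calc 1 + (K : ℝ) / ((p : ℝ) - 1) = 1 + (K : ℝ) * (1 / ((p : ℝ) - 1)) := by ring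
        _ ≤ _ := h3
  have h2 := hn1 (M - 1) X (by omega) (by omega)
  have hHpos : 0 < Real.log ((M - 1 : ℕ) : ℝ) := lt_of_lt_of_le (by positivity) hl1
  have h3 : Real.log X / Real.log ((M - 1 : ℕ) : ℝ) ≤ Real.log X / (δ / 4 * Real.log X) :=
    div_le_div_of_nonneg_left hl0.le (by positivity) hl1
  have h4 : Real.log X / (δ / 4 * Real.log X) = 4 / δ := by
    field_simp
  rw [h4] at h3
  have h5 : Pi1 (PP (M - 1) X) ≤ 4 * C / δ := by
    refine h2.trans ?_
    calc C * (Real.log X / Real.log ((M - 1 : ℕ) : ℝ)) ≤ C * (4 / δ) :=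
          mul_le_mul_of_nonneg_left h3 (by linarith)
      _ = _ := by ring
  have hPi0 : 0 ≤ Pi1 (PP (M - 1) X) := by
    unfold Pi1
    apply Finset.prod_nonneg
    intro p hp
    have := hS p hp
    have h2 : (0 : ℝ) < (p : ℝ) - 1 := by linarith
    positivity
  have h6 : 4 * C / δ ≤ ((⌈4 * C⌉₊ + K : ℕ) : ℝ) / δ := by
    apply div_le_div_of_nonneg_right _ hδ.le
    push_cast
    have := Nat.le_ceil (4 * C)
    have hK : (0 : ℝ) ≤ K := Nat.cast_nonneg K
    linarith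
  have h7 : (1 : ℝ) ≤ ((⌈4 * C⌉₊ + K : ℕ) : ℝ) / δ := by
    refine le_trans ?_ h6
    rw [le_div_iff₀ hδ]
    linarith
  calc ∏ p ∈ PP (M - 1) X, (1 + (K : ℝ) / ((p : ℝ) - 1)) ≤ Pi1 (PP (M - 1) X) ^ K := h1
    _ ≤ (((⌈4 * C⌉₊ + K : ℕ) : ℝ) / δ) ^ K := pow_le_pow_left₀ hPi0 (h5.trans h6) K
    _ ≤ (((⌈4 * C⌉₊ + K : ℕ) : ℝ) / δ) ^ (⌈4 * C⌉₊ + K) :=
        pow_le_pow_right₀ h7 (Nat.le_add_left _ _)

end Pool.Agent.H488R2
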